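import Mathlib

open Finset

namespace Pool.Agent.Lib.MP_604c02_co

lemma prod_bound (a b x y : ℕ → ℝ) (M : ℕ) (ha : ∀ i, 1 ≤ i → i ≤ M → 0 < a i)
    (hb : ∀ i, 1 ≤ i → i ≤ M → 0 < b i)
    (hrec : ∀ i, 1 ≤ i → i < M → b i * a (i + 1) = a i * b (i + 1) * (1 + x i))
    (hy0 : ∀ i, 1 ≤ i → i < M → 0 ≤ y i) (hyx : ∀ i, 1 ≤ i → i < M → y i ≤ x i) :
    ∀ k, 1 ≤ k → k ≤ M → a 1 * b k * (1 + ∑ i ∈ Ico 1 k, y i) ≤ b 1 * a k := by
  intro k hk1
  induction k, hk1 using Nat.le_induction with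
  | base => intro _; simp; linarith [mul_comm (a 1) (b 1)]
  | succ k hk ih =>
    intro hkM
    have hkM' : k < M := hkM
    have ih' := ih hkM'.le
    rw [Finset.sum_Ico_succ_top hk]
    set S := ∑ i ∈ Ico 1 k, y i with hS
    have hS0 : 0 ≤ S := Finset.sum_nonneg fun i hi => by
      rw [Finset.mem_Ico] at hi
      exact hy0 i hi.1 (by omega)
    have h1 := hrec k hk hkM'
    have h2 := hy0 k hk hkM'
    have h3 := hyx k hk hkM'
    have hbk := hb k hk hkM'.le
    have hbk1 := hb (k + 1) (by omega) hkM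
    have ha1 := ha 1 le_rfl (by omega)
    have h4 : a 1 * b (k + 1) * ((1 + S) * (1 + x k)) ≤ b 1 * a (k + 1) := by
      have h5 : b k * (a 1 * b (k + 1) * ((1 + S) * (1 + x k))) ≤ b k * (b 1 * a (k + 1)) := by
        calc b k * (a 1 * b (k + 1) * ((1 + S) * (1 + x k)))
            = (a 1 * b k * (1 + S)) * (b (k + 1) * (1 + x k)) := by ring
          _ ≤ (b 1 * a k) * (b (k + 1) * (1 + x k)) := by
              apply mul_le_mul_of_nonneg_right ih'
              exact mul_nonneg hbk1.le (by linarith)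
          _ = b 1 * (a k * b (k + 1) * (1 + x k)) := by ring
          _ = b 1 * (b k * a (k + 1)) := by rw [h1]
          _ = b k * (b 1 * a (k + 1)) := by ring
      exact le_of_mul_le_mul_left h5 hbk
    refine le_trans ?_ h4
    apply mul_le_mul_of_nonneg_left _ (mul_nonneg ha1.le hbk1.le)
    nlinarith [mul_nonneg hS0 (h2.trans h3)]

lemma sum_formula (M c D : ℝ) (k : ℕ) (hk : 1 ≤ k) :
    ∑ i ∈ Ico 1 k, ((M - (i:ℝ)) * c + D) = ((k:ℝ) - 1) * D + c * (((k:ℝ) - 1) * M - k * ((k:ℝ) - 1) / 2) := by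
  induction k, hk using Nat.le_induction with
  | base => simp
  | succ k hk ih =>
    rw [Finset.sum_Ico_succ_top hk, ih]
    push_cast
    ring

/-- The numerical inequality behind Case 2. -/
lemma num2 {M R j t u E D K N : ℝ} (hM : 2 ≤ M) (hj : 2 ≤ j) (hjR : 2 * j ≤ R + 1)
    (hu : u + 1 ≤ R) (ht1 : 1 ≤ t) (h2t : 2 * t ≤ u + 1) (hE1 : 1 ≤ E)
    (hEt : E + t ≤ j) (hDE : D = E + (u - t)) (hK : K = (M - 1) * R + u) (hN : N = R * M + u) :
    E * ((j * M + t - 1) * K) ≤
      j * N * ((M - 1) * D + (R - j) * ((M - 1) * M - M * (M - 1) / 2)) := by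
  have hRnn : (0:ℝ) ≤ R := by linarith
  have hK2 : R + u ≤ K := by rw [hK]; nlinarith
  have hKpos : 0 < K := by linarith
  have hN' : (M - 1) * N = M * K - u := by rw [hK, hN]; ring
  have huK : u ≤ K / 2 := by linarith
  have hRj : E ≤ R - j := by linarith
  have hRj0 : 0 ≤ R - j := by linarith
  have hut : 0 ≤ u - t := by linarith
  have hjpos : 0 < j := by linarith
  set W : ℝ := M * (R - j) / 2 + D with hW
  have hMR : 0 ≤ M * (R - j) / 2 := by positivity
  have hW0 : 0 ≤ W := by rw [hW, hDE]; linarith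
  have e2 : j * N * ((M - 1) * D + (R - j) * ((M - 1) * M - M * (M - 1) / 2))
      = j * ((M - 1) * N) * W := by rw [hW]; ring
  rw [e2, hN']
  have step1 : j * (K * (M - 1 / 2)) * W ≤ j * (M * K - u) * W := by
    apply mul_le_mul_of_nonneg_right _ hW0
    apply mul_le_mul_of_nonneg_left _ hjpos.le
    linarith
  refine le_trans ?_ step1
  have e3 : E * ((j * M + t - 1) * K) = K * (E * (j * M + t - 1)) := by ring
  have e4 : j * (K * (M - 1 / 2)) * W = K * (j * (M - 1 / 2) * W) := by ring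
  rw [e3, e4]
  apply mul_le_mul_of_nonneg_left _ hKpos.le
  have hW2 : (R - j) + E + (u - t) ≤ W := by
    rw [hW, hDE]
    have : R - j ≤ M * (R - j) / 2 := by nlinarith
    linarith
  have s1 : j * (M - 1 / 2) * ((R - j) + E + (u - t)) ≤ j * (M - 1 / 2) * W := by
    apply mul_le_mul_of_nonneg_left hW2
    apply mul_nonneg hjpos.le (by linarith)
  refine le_trans ?_ s1
  have s2 : j * E ≤ j * (R - j) := mul_le_mul_of_nonneg_left hRj hjpos.le
  have s3 : (t - 1) * E ≤ j * (u - t) := by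
    have : (t - 1) * E ≤ (u - t) * j :=
      mul_le_mul (by linarith) (by linarith) (by linarith) hut
    linarith
  have s4 : 0 ≤ j * (R - j) := mul_nonneg hjpos.le hRj0
  have s5 : 0 ≤ j * (u - t) := mul_nonneg hjpos.le hut
  have s6 : (3/2) * (j * (R - j) + j * (u - t)) ≤ (M - 1/2) * (j * (R - j) + j * (u - t)) := by
    apply mul_le_mul_of_nonneg_right (by linarith) (by linarith)
  have e5 : j * (M - 1 / 2) * ((R - j) + E + (u - t)) =
      (M - 1/2) * (j * (R - j) + j * (u - t)) + (M - 1/2) * (j * E) := by ring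
  have e6 : E * (j * M + t - 1) = M * (j * E) + (t - 1) * E := by ring
  rw [e5, e6]
  linarith

set_option maxHeartbeats 2000000 in
/-- The key binomial inequality. -/
lemma lemma_star {M R j t u : ℕ} (hM : 2 ≤ M) (hj : 2 ≤ j) (hjR : 2 * j ≤ R + 1) (hu : u + 1 ≤ R)
    (h1 : (R + 1) * t ≤ j * (u + 1)) (h2 : j * (u + 1) < (R + 1) * (t + 1)) :
    (j * M + t).choose j * (R * M + u - M).choose (R - 1) ≤
      (j * M + t - M).choose (j - 1) * (R * M + u).choose R := by
  set p := j * M + t with hp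
  set N := R * M + u with hN
  have hpM : j * M ≤ p := by omega
  have hNM : R * M ≤ N := by omega
  have hR2 : 2 ≤ R := by omega
  have hjM : 2 * M ≤ j * M := Nat.mul_le_mul_right _ hj
  have hRM : 2 * M ≤ R * M := Nat.mul_le_mul_right _ hR2
  -- `(j-1) M ≤ p - M`, strictness facts
  have hjM2 : j + M ≤ j * M := by nlinarith
  have hRM2 : R + M ≤ R * M := by nlinarith
  set a : ℕ → ℝ := fun i => ((p - i).choose (j - 1) : ℝ) with ha
  set b : ℕ → ℝ := fun i => ((N - i).choose (R - 1) : ℝ) with hb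
  have hapos : ∀ i, 1 ≤ i → i ≤ M → 0 < a i := by
    intro i _ hi
    simp only [ha]
    exact_mod_cast Nat.choose_pos (by omega)
  have hbpos : ∀ i, 1 ≤ i → i ≤ M → 0 < b i := by
    intro i _ hi
    simp only [hb]
    exact_mod_cast Nat.choose_pos (by omega)
  -- real versions
  have hpr : (p:ℝ) = j * M + t := by rw [hp]; push_cast; ring
  have hNr : (N:ℝ) = R * M + u := by rw [hN]; push_cast; ring
  have hMr : (2:ℝ) ≤ M := by exact_mod_cast hM
  have hjr : (2:ℝ) ≤ j := by exact_mod_cast hj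
  have hjRr : 2 * (j:ℝ) ≤ R + 1 := by exact_mod_cast hjR
  have hur : (u:ℝ) + 1 ≤ R := by exact_mod_cast hu
  have h1r : ((R:ℝ) + 1) * t ≤ j * (u + 1) := by exact_mod_cast h1
  have h2r : (j:ℝ) * (u + 1) + 1 ≤ (R + 1) * (t + 1) := by exact_mod_cast h2
  have ht0 : (0:ℝ) ≤ t := Nat.cast_nonneg _
  have hu0 : (0:ℝ) ≤ u := Nat.cast_nonneg _
  set D : ℝ := ((R:ℝ) - 1) * t - ((j:ℝ) - 1) * u with hD
  set x : ℕ → ℝ := fun i => (((M:ℝ) - i) * (R - j) + D) / (((p:ℝ) - i) * ((N:ℝ) - i - R + 1)) with hx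
  have hden1 : ∀ i : ℕ, 1 ≤ i → i < M → 0 < (p:ℝ) - i := by
    intro i _ hi
    have : (i:ℝ) < M := by exact_mod_cast hi
    have h3 : (M:ℝ) ≤ p := by exact_mod_cast (by omega : M ≤ p)
    linarith
  have hden2 : ∀ i : ℕ, 1 ≤ i → i < M → 0 < (N:ℝ) - i - R + 1 := by
    intro i _ hi
    have : (i:ℝ) < M := by exact_mod_cast hi
    have h3 : (R:ℝ) + M ≤ N := by exact_mod_cast (by omega : R + M ≤ N)
    linarith
  have hrec : ∀ i, 1 ≤ i → i < M → b i * a (i + 1) = a i * b (i + 1) * (1 + x i) := by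
    intro i hi1 hi2
    have d1 := hden1 i hi1 hi2
    have d2 := hden2 i hi1 hi2
    have e1 := Nat.choose_mul_succ_eq (p - (i + 1)) (j - 1)
    have e2 := Nat.choose_mul_succ_eq (N - (i + 1)) (R - 1)
    have f1 : p - (i + 1) + 1 = p - i := by omega
    have f2 : N - (i + 1) + 1 = N - i := by omega
    rw [f1] at e1
    rw [f2] at e2
    have e1r : a (i + 1) * ((p:ℝ) - i) = a i * ((p:ℝ) - i - (j - 1)) := by
      simp only [ha]
      have g1 : ((p - i : ℕ) : ℝ) = (p:ℝ) - i := by
        rw [Nat.cast_sub (by omega)]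
      have g2 : ((p - i - (j - 1) : ℕ) : ℝ) = (p:ℝ) - i - (j - 1) := by
        rw [Nat.cast_sub (by omega), Nat.cast_sub (by omega), Nat.cast_sub (by omega)]
        push_cast; ring
      rw [← g2, ← g1]
      exact_mod_cast e1
    have e2r : b (i + 1) * ((N:ℝ) - i) = b i * ((N:ℝ) - i - R + 1) := by
      simp only [hb]
      have g1 : ((N - i : ℕ) : ℝ) = (N:ℝ) - i := by
        rw [Nat.cast_sub (by omega)]
      have g2 : ((N - i - (R - 1) : ℕ) : ℝ) = (N:ℝ) - i - R + 1 := by
        rw [Nat.cast_sub (by omega), Nat.cast_sub (by omega), Nat.cast_sub (by omega)]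
        push_cast; ring
      rw [← g2, ← g1]
      exact_mod_cast e2
    have key : ((N:ℝ) - i) * ((p:ℝ) - i - (j - 1)) =
        ((p:ℝ) - i) * ((N:ℝ) - i - R + 1) + ((((M:ℝ) - i) * (R - j) + D)) := by
      rw [hD, hpr, hNr]; ring
    have hx' : (1 + x i) * (((p:ℝ) - i) * ((N:ℝ) - i - R + 1)) =
        ((N:ℝ) - i) * ((p:ℝ) - i - (j - 1)) := by
      simp only [hx]
      rw [add_mul, div_mul_cancel₀ _ (mul_pos d1 d2).ne', one_mul, key]
    have hmul : (((p:ℝ) - i) * ((N:ℝ) - i - R + 1)) * (b i * a (i + 1)) =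
        (((p:ℝ) - i) * ((N:ℝ) - i - R + 1)) * (a i * b (i + 1) * (1 + x i)) := by
      calc (((p:ℝ) - i) * ((N:ℝ) - i - R + 1)) * (b i * a (i + 1))
          = (b i * ((N:ℝ) - i - R + 1)) * (a (i + 1) * ((p:ℝ) - i)) := by ring
        _ = (b (i + 1) * ((N:ℝ) - i)) * (a i * ((p:ℝ) - i - (j - 1))) := by rw [e1r, e2r]
        _ = (a i * b (i + 1)) * (((N:ℝ) - i) * ((p:ℝ) - i - (j - 1))) := by ring
        _ = (a i * b (i + 1)) * ((1 + x i) * (((p:ℝ) - i) * ((N:ℝ) - i - R + 1))) := by rw [hx']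
        _ = _ := by ring
    exact mul_left_cancel₀ (mul_pos d1 d2).ne' hmul
  -- reduction to `p R ≤ j N (1 + S)`
  have hfin : ∀ y : ℕ → ℝ, (∀ i, 1 ≤ i → i < M → 0 ≤ y i) → (∀ i, 1 ≤ i → i < M → y i ≤ x i) →
      (p:ℝ) * R ≤ j * N * (1 + ∑ i ∈ Ico 1 M, y i) →
      (p.choose j : ℝ) * b M ≤ a M * (N.choose R : ℝ) := by
    intro y hy0 hyx hS
    have hPB := prod_bound a b x y M hapos hbpos hrec hy0 hyx M (by omega) le_rfl
    have c1 : (p.choose j : ℝ) * j = p * a 1 := by
      have := Nat.add_one_mul_choose_eq (p - 1) (j - 1)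
      rw [show p - 1 + 1 = p by omega, show j - 1 + 1 = j by omega] at this
      simp only [ha]
      exact_mod_cast this.symm
    have c2 : (N.choose R : ℝ) * R = N * b 1 := by
      have := Nat.add_one_mul_choose_eq (N - 1) (R - 1)
      rw [show N - 1 + 1 = N by omega, show R - 1 + 1 = R by omega] at this
      simp only [hb]
      exact_mod_cast this.symm
    have hjpos : (0:ℝ) < j := by linarith
    have hRpos : (0:ℝ) < R := by linarith
    have hNpos : (0:ℝ) ≤ N := Nat.cast_nonneg _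
    have ha1 := hapos 1 le_rfl (by omega)
    have hbM := hbpos M (by omega) le_rfl
    have hmul : ((j:ℝ) * R) * ((p.choose j : ℝ) * b M) ≤ ((j:ℝ) * R) * (a M * (N.choose R : ℝ)) := by
      calc ((j:ℝ) * R) * ((p.choose j : ℝ) * b M) = (((p.choose j : ℝ) * j) * R) * b M := by ring
        _ = (p * R) * (a 1 * b M) := by rw [c1]; ring
        _ ≤ (j * N * (1 + ∑ i ∈ Ico 1 M, y i)) * (a 1 * b M) := by
            apply mul_le_mul_of_nonneg_right hS (mul_pos ha1 hbM).le
        _ = (j * N) * (a 1 * b M * (1 + ∑ i ∈ Ico 1 M, y i)) := by ring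
        _ ≤ (j * N) * (b 1 * a M) := by
            apply mul_le_mul_of_nonneg_left hPB (mul_nonneg hjpos.le hNpos)
        _ = j * (N * b 1) * a M := by ring
        _ = j * ((N.choose R : ℝ) * R) * a M := by rw [c2]
        _ = _ := by ring
    exact le_of_mul_le_mul_left hmul (mul_pos hjpos hRpos)
  have hgoal : (p.choose j : ℝ) * b M ≤ a M * (N.choose R : ℝ) := by
    rcases Nat.lt_or_ge (j * u) (R * t) with hE | hE
    · -- Case 2 : `E = R t - j u ≥ 1`
      have hEr : (j:ℝ) * u + 1 ≤ R * t := by exact_mod_cast hE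
      set E : ℝ := (R:ℝ) * t - j * u with hEdef
      have hE1 : 1 ≤ E := by linarith
      have ht1 : 1 ≤ t := by
        by_contra hcon
        have : t = 0 := by omega
        rw [this] at hE; omega
      have ht1r : (1:ℝ) ≤ t := by exact_mod_cast ht1
      have hEt : E + t ≤ j := by rw [hEdef]; linarith
      have hDE : D = E + (u - t) := by rw [hD, hEdef]; ring
      have h2t : 2 * t ≤ u + 1 := by
        by_contra hcon
        push Not at hcon
        have g1 : (R + 1) * (u + 2) ≤ (R + 1) * (2 * t) := Nat.mul_le_mul_left _ (by omega)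
        have g2 : 2 * (j * (u + 1)) ≤ (R + 1) * (u + 1) := by
          calc 2 * (j * (u + 1)) = (2 * j) * (u + 1) := by ring
            _ ≤ (R + 1) * (u + 1) := Nat.mul_le_mul_right _ hjR
        nlinarith
      have h2tr : 2 * (t:ℝ) ≤ u + 1 := by exact_mod_cast h2t
      set K : ℝ := (N:ℝ) - R with hK
      have hKval : K = ((M:ℝ) - 1) * R + u := by rw [hK, hNr]; ring
      have hRnn : (0:ℝ) ≤ R := by linarith
      have hK2 : (R:ℝ) + u ≤ K := by rw [hKval]; nlinarith
      have hKpos : 0 < K := by linarith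
      have hp1 : 0 < (p:ℝ) - 1 := by rw [hpr]; nlinarith
      refine hfin (fun i => (((M:ℝ) - i) * (R - j) + D) / (((p:ℝ) - 1) * K)) ?_ ?_ ?_
      · intro i hi1 hi2
        have : (i:ℝ) ≤ M := by exact_mod_cast hi2.le
        apply div_nonneg _ (mul_pos hp1 hKpos).le
        rw [hDE]
        have : 0 ≤ ((M:ℝ) - i) * (R - j) := mul_nonneg (by linarith) (by linarith)
        linarith
      · intro i hi1 hi2
        have hiM : (i:ℝ) ≤ M := by exact_mod_cast hi2.le
        have hi1r : (1:ℝ) ≤ i := by exact_mod_cast hi1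
        have d1 := hden1 i hi1 hi2
        have d2 := hden2 i hi1 hi2
        simp only [hx]
        apply div_le_div_of_nonneg_left _ (mul_pos d1 d2)
        · apply mul_le_mul (by linarith) (by rw [hK]; linarith) d2.le hp1.le
        · rw [hDE]
          have : 0 ≤ ((M:ℝ) - i) * (R - j) := mul_nonneg (by linarith) (by linarith)
          linarith
      · rw [← Finset.sum_div, sum_formula (M:ℝ) (R - j) D M (by omega)]
        have hden : 0 < ((p:ℝ) - 1) * K := mul_pos hp1 hKpos
        have e1 : (p:ℝ) * R = j * N + E := by rw [hpr, hNr, hEdef]; ring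
        rw [e1, mul_add, mul_one, add_le_add_iff_left, ← mul_div_assoc, le_div_iff₀ hden]
        rw [hpr]
        exact num2 hMr hjr hjRr hur ht1r h2tr hE1 hEt hDE hKval hNr
    · -- Case 1
      have hEr : (R:ℝ) * t ≤ j * u := by exact_mod_cast hE
      have h2t : 2 * t ≤ u := by
        by_contra hcon
        push Not at hcon
        have g1 : R * (u + 1) ≤ R * (2 * t) := Nat.mul_le_mul_left _ (by omega)
        have g2 : 2 * (j * u) ≤ (R + 1) * u := by
          calc 2 * (j * u) = (2 * j) * u := by ring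
            _ ≤ (R + 1) * u := Nat.mul_le_mul_right _ hjR
        nlinarith
      have h2tr : 2 * (t:ℝ) ≤ u := by exact_mod_cast h2t
      have hD1 : -D ≤ (R:ℝ) - j := by
        rw [hD]
        linarith
      refine hfin (fun _ => 0) (fun i _ _ => le_rfl) ?_ ?_
      · intro i hi1 hi2
        have hiM : (i:ℝ) + 1 ≤ M := by exact_mod_cast hi2
        apply div_nonneg _ (mul_pos (hden1 i hi1 hi2) (hden2 i hi1 hi2)).le
        have : (R:ℝ) - j ≤ ((M:ℝ) - i) * (R - j) := by
          have : (0:ℝ) ≤ R - j := by linarith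
          nlinarith
        linarith
      · simp only [Finset.sum_const_zero, add_zero, mul_one]
        rw [hpr, hNr]
        linarith
  have : ((p.choose j * (N - M).choose (R - 1) : ℕ) : ℝ) ≤
      (((p - M).choose (j - 1) * N.choose R : ℕ) : ℝ) := by
    push_cast
    exact hgoal
  exact_mod_cast this

end Pool.Agent.Lib.MP_604c02_co
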