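import Mathlib

namespace Pool.Agent.Lib.MP_604c02_co

/-- The product `C(p,j) C(n-p,s)`. -/
def cc (n j s p : ℕ) : ℕ := p.choose j * (n - p).choose s

lemma cc_step {n j s p : ℕ} (hp : p + 1 ≤ n) :
    cc n j s (p + 1) * ((p + 1 - j) * (n - p)) = cc n j s p * ((p + 1) * (n - p - s)) := by
  unfold cc
  have h1 := Nat.choose_mul_succ_eq p j
  have h2 := Nat.choose_mul_succ_eq (n - (p + 1)) s
  have e : n - (p + 1) + 1 = n - p := by omega
  rw [e] at h2
  calc (p + 1).choose j * (n - (p + 1)).choose s * ((p + 1 - j) * (n - p))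
      = ((p + 1).choose j * (p + 1 - j)) * ((n - (p + 1)).choose s * (n - p)) := by ring
    _ = (p.choose j * (p + 1)) * ((n - p).choose s * (n - p - s)) := by rw [← h1, h2]
    _ = _ := by ring

/-- increasing part -/
lemma cc_le_succ {n j s p : ℕ} (hp : p + 1 ≤ n) (h : (p + 1) * (j + s) ≤ j * (n + 1)) :
    cc n j s p ≤ cc n j s (p + 1) := by
  rcases Nat.lt_or_ge p j with hpj | hpj
  · have : cc n j s p = 0 := by
      unfold cc; rw [Nat.choose_eq_zero_of_lt hpj, zero_mul]
    rw [this]; exact Nat.zero_le _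
  · have hs := cc_step (j := j) (s := s) hp
    have hpos : 0 < (p + 1 - j) * (n - p) := Nat.mul_pos (by omega) (by omega)
    have hs_le : s ≤ n - p := by
      -- (p+1) s ≤ j (n - p) ≤ p (n-p)
      by_contra hcon
      push Not at hcon
      have h3 : (p + 1) * s ≤ j * (n - p) := by
        have : j * (n + 1) = j * (p + 1) + j * (n - p) := by
          rw [← Nat.mul_add]; congr 1; omega
        nlinarith
      have h4 : j * (n - p) ≤ p * (n - p) := Nat.mul_le_mul_right _ hpj
      have h5 : (p + 1) * (n - p) ≤ (p + 1) * s := Nat.mul_le_mul_left _ hcon.le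
      have h6 : 0 < n - p := by omega
      nlinarith
    have hcmp : (p + 1 - j) * (n - p) ≤ (p + 1) * (n - p - s) := by
      obtain ⟨a, ha⟩ : ∃ a, p + 1 = a + j := ⟨p + 1 - j, by omega⟩
      obtain ⟨b, hb⟩ : ∃ b, n - p = b + s := ⟨n - p - s, by omega⟩
      have e1 : p + 1 - j = a := by omega
      have e2 : n - p - s = b := by omega
      have e3 : n + 1 = a + j + (b + s) := by omega
      rw [e1, e2, hb, ha]
      rw [ha, e3] at h
      nlinarith
    by_contra hcon
    push Not at hcon
    have : cc n j s (p + 1) * ((p + 1 - j) * (n - p)) < cc n j s p * ((p + 1) * (n - p - s)) :=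
      calc cc n j s (p + 1) * ((p + 1 - j) * (n - p))
          < cc n j s p * ((p + 1 - j) * (n - p)) := Nat.mul_lt_mul_of_pos_right hcon hpos
        _ ≤ cc n j s p * ((p + 1) * (n - p - s)) := Nat.mul_le_mul_left _ hcmp
    omega

/-- decreasing part -/
lemma cc_succ_le {n j s p : ℕ} (hp : p + 1 ≤ n) (hj : 1 ≤ j) (hjs : j + s ≤ n)
    (h : j * (n + 1) ≤ (p + 1) * (j + s)) :
    cc n j s (p + 1) ≤ cc n j s p := by
  have hpj : j ≤ p := by
    by_contra hcon
    push Not at hcon
    have h1 : (p + 1) * (j + s) ≤ j * (j + s) := Nat.mul_le_mul_right _ hcon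
    have h2 : j * (j + s) < j * (n + 1) := Nat.mul_lt_mul_of_pos_left (by omega) hj
    omega
  have hs := cc_step (j := j) (s := s) hp
  have hpos : 0 < (p + 1 - j) * (n - p) := Nat.mul_pos (by omega) (by omega)
  have hcmp : (p + 1) * (n - p - s) ≤ (p + 1 - j) * (n - p) := by
    rcases Nat.lt_or_ge (n - p) s with hlt | hge
    · have : n - p - s = 0 := by omega
      rw [this, Nat.mul_zero]; exact Nat.zero_le _
    · obtain ⟨a, ha⟩ : ∃ a, p + 1 = a + j := ⟨p + 1 - j, by omega⟩
      obtain ⟨b, hb⟩ : ∃ b, n - p = b + s := ⟨n - p - s, by omega⟩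
      have e1 : p + 1 - j = a := by omega
      have e2 : n - p - s = b := by omega
      have e3 : n + 1 = a + j + (b + s) := by omega
      rw [e1, e2, hb, ha]
      rw [ha, e3] at h
      nlinarith
  by_contra hcon
  push Not at hcon
  have : cc n j s p * ((p + 1) * (n - p - s)) < cc n j s (p + 1) * ((p + 1 - j) * (n - p)) :=
    calc cc n j s p * ((p + 1) * (n - p - s))
        ≤ cc n j s p * ((p + 1 - j) * (n - p)) := Nat.mul_le_mul_left _ hcmp
      _ < cc n j s (p + 1) * ((p + 1 - j) * (n - p)) := Nat.mul_lt_mul_of_pos_right hcon hpos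
  omega

/-- Any integer `P` with `P r ≤ j (n+1) ≤ (P+1) r` maximises `p ↦ C(p,j) C(n-p,s)`, `r = j+s`. -/
lemma cc_le_max {n j s P : ℕ} (hj : 1 ≤ j) (hjs : j + s ≤ n) (hPn : P ≤ n)
    (h1 : P * (j + s) ≤ j * (n + 1)) (h2 : j * (n + 1) ≤ (P + 1) * (j + s)) {p : ℕ} (hp : p ≤ n) :
    cc n j s p ≤ cc n j s P := by
  rcases Nat.le_total p P with hpP | hPp
  · obtain ⟨k, rfl⟩ := Nat.exists_eq_add_of_le hpP
    clear hpP h2
    induction k with
    | zero => exact le_rfl
    | succ k ih =>
      refine le_trans (ih (by omega) ?_) (cc_le_succ (by omega) ?_)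
      · refine le_trans (Nat.mul_le_mul_right _ ?_) h1; omega
      · exact h1
  · obtain ⟨k, rfl⟩ := Nat.exists_eq_add_of_le hPp
    clear hPp
    induction k with
    | zero => exact le_rfl
    | succ k ih =>
      have hp' : P + k + 1 ≤ n := hp
      have hp'' : P + k ≤ n := by omega
      refine le_trans (cc_succ_le hp' hj hjs ?_) (ih hp'')
      exact le_trans h2 (Nat.mul_le_mul_right _ (Nat.succ_le_succ (Nat.le_add_right P k)))

end Pool.Agent.Lib.MP_604c02_co
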