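import Mathlib
import Pool.Agent.Lib.MP_604c02_co.Unimodal
import Pool.Agent.Lib.MP_604c02_co.LemmaStar

namespace Pool.Agent.Lib.MP_604c02_co

/-- The extremal value. -/
def ff (n r : ℕ) : ℕ := (n / r) * (n - n / r).choose (r - 1)

lemma cc_symm {n j s p : ℕ} (hp : p ≤ n) : cc n j s p = cc n s j (n - p) := by
  unfold cc
  rw [Nat.sub_sub_self hp, mul_comm]

lemma cc_one {n s p : ℕ} (hn : 1 + s ≤ n) (hp : p ≤ n) : cc n 1 s p ≤ ff n (1 + s) := by
  have hM : n / (1 + s) ≤ n := Nat.div_le_self _ _
  have hpos : 0 < 1 + s := by omega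
  have h1 : n / (1 + s) * (1 + s) ≤ 1 * (n + 1) := by
    have := Nat.div_mul_le_self n (1 + s); omega
  have h2 : 1 * (n + 1) ≤ (n / (1 + s) + 1) * (1 + s) := by
    have := Nat.lt_div_mul_add (a := n) hpos
    rw [Nat.add_mul]; omega
  have := cc_le_max (n := n) (j := 1) (s := s) le_rfl hn hM h1 h2 hp
  refine this.trans (le_of_eq ?_)
  unfold cc ff
  rw [Nat.choose_one_right]
  congr 2
  omega

/-- The inductive step, when `n` is not congruent to `-1` modulo `r`. -/
lemma core {n j s : ℕ} (hj : 2 ≤ j) (hjs : j ≤ s) (hn : 2 * (j + s) ≤ n)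
    (hu : n % (j + s) + 1 ≤ j + s - 1)
    (IH : ∀ N, 2 * (j + s - 1) ≤ N → ∀ p, p ≤ N → cc N (j - 1) s p ≤ ff N (j + s - 1))
    {p : ℕ} (hp : p ≤ n) : cc n j s p ≤ ff n (j + s) := by
  set r := j + s with hr
  set R := r - 1 with hR
  set M := n / r with hM
  set u := n % r with hu'
  have hr0 : 0 < r := by omega
  have hnMu : r * M + u = n := Nat.div_add_mod n r
  have hM2 : 2 ≤ M := by
    rw [hM, Nat.le_div_iff_mul_le hr0]; omega
  have hrR : r = R + 1 := by omega
  set t := j * (u + 1) / r with ht
  have ht1 : r * t ≤ j * (u + 1) := Nat.mul_div_le _ _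
  have ht2 : j * (u + 1) < r * (t + 1) := by
    have := Nat.lt_mul_div_succ (j * (u + 1)) hr0
    exact this
  set P := j * M + t with hP
  have hjr : j < r := by omega
  have hPr : P * r ≤ j * (n + 1) := by
    rw [hP, ← hnMu]; nlinarith
  have hPr2 : j * (n + 1) ≤ (P + 1) * r := by
    rw [hP, ← hnMu]; nlinarith
  have hPn : P ≤ n := by
    by_contra hcon
    push Not at hcon
    have h1 : (n + 1) * r ≤ P * r := Nat.mul_le_mul_right _ hcon
    have h2 : j * (n + 1) < r * (n + 1) := Nat.mul_lt_mul_of_pos_right hjr (by omega)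
    nlinarith
  have hmax := cc_le_max (n := n) (j := j) (s := s) (P := P) (by omega) (by omega) hPn
    (by rw [← hr]; exact hPr) (by rw [← hr]; exact hPr2) hp
  refine hmax.trans ?_
  -- the smaller instance
  have hMn : M ≤ n := Nat.div_le_self _ _
  set N := n - M with hN
  have hNval : N = R * M + u := by
    have h5 : n = R * M + M + u := by
      calc n = r * M + u := hnMu.symm
        _ = (R + 1) * M + u := by rw [← hrR]
        _ = R * M + M + u := by ring
    have h6 : N + M = n := Nat.sub_add_cancel hMn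
    omega
  have hjM : M ≤ j * M := Nat.le_mul_of_pos_left _ (by omega)
  have hPM : M ≤ P := hjM.trans (Nat.le_add_right _ _)
  have hNR : N / R = M := by
    rw [hNval]
    have hR0 : 0 < R := by omega
    rw [mul_comm, Nat.mul_comm M R, Nat.add_comm, Nat.add_mul_div_left _ _ hR0,
      Nat.div_eq_of_lt (by omega), zero_add]
  have hN2 : 2 * R ≤ N := by
    rw [hNval]; nlinarith
  have h1 := IH N hN2 (P - M) (by omega)
  have hcc : cc N (j - 1) s (P - M) = (P - M).choose (j - 1) * (n - P).choose s := by
    unfold cc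
    congr 2
    omega
  rw [hcc] at h1
  unfold ff at h1
  rw [hNR] at h1
  have h2 : P.choose j * (N - M).choose (R - 1) ≤ (P - M).choose (j - 1) * N.choose R := by
    have := lemma_star (M := M) (R := R) (j := j) (t := t) (u := u) hM2 hj (by omega) hu
      (by rw [← hrR]; exact ht1) (by rw [← hrR]; exact ht2)
    rw [← hNval, ← hP] at this
    exact this
  have hpos : 0 < (P - M).choose (j - 1) := by
    apply Nat.choose_pos
    apply Nat.le_sub_of_add_le
    have h5 : j + M ≤ j * M + 1 := by nlinarith
    calc j - 1 + M ≤ j * M := by omega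
      _ ≤ P := Nat.le_add_right _ _
  have h3 : (P - M).choose (j - 1) * cc n j s P ≤ (P - M).choose (j - 1) * ff n r := by
    calc (P - M).choose (j - 1) * cc n j s P
        = P.choose j * ((P - M).choose (j - 1) * (n - P).choose s) := by unfold cc; ring
      _ ≤ P.choose j * (M * (N - M).choose (R - 1)) := Nat.mul_le_mul_left _ h1
      _ = M * (P.choose j * (N - M).choose (R - 1)) := by ring
      _ ≤ M * ((P - M).choose (j - 1) * N.choose R) := Nat.mul_le_mul_left _ h2
      _ = (P - M).choose (j - 1) * ff n r := by unfold ff; rw [← hM, ← hR, ← hN]; ring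
  exact Nat.le_of_mul_le_mul_left h3 hpos

/-- The inductive step in general, `2 ≤ j ≤ s`. -/
lemma core' {n j s : ℕ} (hj : 2 ≤ j) (hjs : j ≤ s) (hn : 2 * (j + s) ≤ n)
    (IH : ∀ N, 2 * (j + s - 1) ≤ N → ∀ p, p ≤ N → cc N (j - 1) s p ≤ ff N (j + s - 1))
    {p : ℕ} (hp : p ≤ n) : cc n j s p ≤ ff n (j + s) := by
  rcases Nat.lt_or_ge (n % (j + s) + 1) (j + s) with hlt | hge
  · exact core hj hjs hn (by omega) IH hp
  · set r := j + s with hr
    have hr0 : 0 < r := by omega
    have hmod : n % r < r := Nat.mod_lt _ hr0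
    set M := n / r with hM
    have hnM : r * M + n % r = n := Nat.div_add_mod n r
    have hn1 : n + 1 = (M + 1) * r := by
      have : n % r = r - 1 := by omega
      rw [Nat.add_mul, one_mul, mul_comm M r]; omega
    have hM2 : 2 ≤ M := by
      rw [hM, Nat.le_div_iff_mul_le hr0]; omega
    have hmod1 : (n + 1) % r = 0 := by rw [hn1]; exact Nat.mul_mod_left _ _
    have hdiv1 : (n + 1) / r = M + 1 := by rw [hn1]; exact Nat.mul_div_cancel _ hr0
    set P := (M + 1) * j with hP
    have hPn : P ≤ n := by
      have : (M + 1) * (j + 1) ≤ (M + 1) * r := Nat.mul_le_mul_left _ (by omega)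
      rw [Nat.mul_add, mul_one] at this
      omega
    have hmax := cc_le_max (n := n) (j := j) (s := s) (P := P) (by omega) (by omega) hPn
      (by rw [← hr, hP, hn1]; exact le_of_eq (by ring))
      (by rw [← hr, hP, hn1]; nlinarith) hp
    refine hmax.trans ?_
    have hc := core (n := n + 1) hj hjs (by omega) (by rw [← hr, hmod1]; omega) IH
      (p := P) (by omega)
    rw [← hr] at hc
    have e1 : n + 1 - P = (M + 1) * s := by
      rw [hn1, hP, hr, ← Nat.mul_sub]; congr 1; omega
    have e2 : n - P = (M + 1) * s - 1 := by omega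
    have hs0 : 0 < s := by omega
    have hMs : 0 < (M + 1) * s := Nat.mul_pos (by omega) hs0
    have e3 : (M + 1) * ((M + 1) * s - 1).choose s = M * ((M + 1) * s).choose s := by
      have h := Nat.choose_mul_succ_eq ((M + 1) * s - 1) s
      have h' : (M + 1) * s - 1 + 1 = (M + 1) * s := by omega
      rw [h'] at h
      have h'' : (M + 1) * s - s = M * s := by rw [Nat.add_mul, one_mul]; omega
      rw [h''] at h
      have : s * ((M + 1) * ((M + 1) * s - 1).choose s) = s * (M * ((M + 1) * s).choose s) := by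
        calc s * ((M + 1) * ((M + 1) * s - 1).choose s)
            = ((M + 1) * s - 1).choose s * ((M + 1) * s) := by ring
          _ = ((M + 1) * s).choose s * (M * s) := h
          _ = _ := by ring
      exact Nat.eq_of_mul_eq_mul_left hs0 this
    have e4 : n + 1 - (M + 1) = (M + 1) * (r - 1) := by
      rw [hn1, Nat.mul_sub, mul_one]
    have e5 : n - M = (M + 1) * (r - 1) := by omega
    have hfin : (M + 1) * cc n j s P ≤ (M + 1) * ff n r := by
      have hc' : P.choose j * ((M + 1) * s).choose s ≤ (M + 1) * ((M + 1) * (r - 1)).choose (r - 1) := by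
        have h := hc
        unfold cc ff at h
        rw [e1, hdiv1, e4] at h
        exact h
      calc (M + 1) * cc n j s P
          = P.choose j * ((M + 1) * ((M + 1) * s - 1).choose s) := by unfold cc; rw [e2]; ring
        _ = M * (P.choose j * ((M + 1) * s).choose s) := by rw [e3]; ring
        _ ≤ M * ((M + 1) * ((M + 1) * (r - 1)).choose (r - 1)) := Nat.mul_le_mul_left _ hc'
        _ = (M + 1) * ff n r := by unfold ff; rw [← hM, e5]; ring
    exact Nat.le_of_mul_le_mul_left hfin (by omega)

/-- The numerical inequality: `C(p,j) C(n-p,s) ≤ ⌊n/r⌋ C(n-⌊n/r⌋, r-1)` for `j + s = r`. -/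
theorem numeric (r : ℕ) : ∀ n j s p : ℕ, j + s = r → 1 ≤ j → 1 ≤ s → 2 * r ≤ n → p ≤ n →
    cc n j s p ≤ ff n r := by
  induction r with
  | zero => intro n j s p h1 h2 h3; omega
  | succ r ih =>
    intro n j s p hjs hj hs hn hp
    -- the ordered case
    have key : ∀ j s p : ℕ, j + s = r + 1 → 1 ≤ j → j ≤ s → p ≤ n → cc n j s p ≤ ff n (r + 1) := by
      intro j s p hjs hj hle hp
      rcases hj.eq_or_lt with h | h
      · subst h
        rw [← hjs]
        exact cc_one (by omega) hp
      · rw [← hjs]
        refine core' h hle (by omega) ?_ hp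
        intro N hN q hq
        have e : j + s - 1 = r := by omega
        rw [e] at hN ⊢
        exact ih N (j - 1) s q (by omega) (by omega) (by omega) hN hq
    rcases Nat.le_total j s with h | h
    · exact key j s p hjs hj h hp
    · rw [cc_symm hp]
      exact key s j (n - p) (by omega) hs h (Nat.sub_le _ _)

end Pool.Agent.Lib.MP_604c02_co
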