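import Mathlib
import Pool.Agent.Lib.MP_604c02_co.Numeric

open Finset Numbering

set_option linter.unusedSectionVars false
set_option linter.unusedVariables false

namespace Pool.Agent.Lib.MP_604c02_co

variable {ι : Type*} [Fintype ι] [DecidableEq ι]

/-- positive part of a set, as a set of positive indices -/
def SS (x : ι → ℚ) (B : Finset ι) : Finset {i : ι // 0 < x i} := B.subtype (fun i => 0 < x i)

/-- complement of the negative part of a set, as a set of negative indices -/
def TT (x : ι → ℚ) (B : Finset ι) : Finset {i : ι // x i < 0} := (B.subtype (fun i => x i < 0))ᶜ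

lemma card_SS (x : ι → ℚ) (B : Finset ι) : (SS x B).card = (B.filter (fun i => 0 < x i)).card := by
  unfold SS
  rw [Finset.card_subtype]

lemma card_TT (x : ι → ℚ) (B : Finset ι) :
    (TT x B).card + (B.filter (fun i => x i < 0)).card = Fintype.card {i : ι // x i < 0} := by
  unfold TT
  rw [← Finset.card_subtype, add_comm]
  exact Finset.card_add_card_compl _

lemma filter_split {x : ι → ℚ} (hx : ∀ i, x i ≠ 0) (B : Finset ι) :
    B.filter (fun i => ¬ 0 < x i) = B.filter (fun i => x i < 0) := by
  ext i
  simp only [mem_filter, not_lt, and_congr_right_iff]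
  intro _
  exact ⟨fun h => lt_of_le_of_ne h (hx i), fun h => h.le⟩

lemma card_split {x : ι → ℚ} (hx : ∀ i, x i ≠ 0) (B : Finset ι) :
    (B.filter (fun i => 0 < x i)).card + (B.filter (fun i => x i < 0)).card = B.card := by
  rw [← filter_split hx]
  exact Finset.card_filter_add_card_filter_not _

lemma sum_split {x : ι → ℚ} (hx : ∀ i, x i ≠ 0) (B : Finset ι) :
    ∑ i ∈ B.filter (fun i => 0 < x i), x i + ∑ i ∈ B.filter (fun i => x i < 0), x i =
      ∑ i ∈ B, x i := by
  rw [← filter_split hx]
  exact Finset.sum_filter_add_sum_filter_not _ _ _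

lemma antichain {x : ι → ℚ} (hx : ∀ i, x i ≠ 0) {B B' : Finset ι} (hB : ∑ i ∈ B, x i = 0)
    (hB' : ∑ i ∈ B', x i = 0) (hS : SS x B ⊆ SS x B') (hT : TT x B ⊆ TT x B') : B = B' := by
  have h1 : B.filter (fun i => 0 < x i) ⊆ B'.filter (fun i => 0 < x i) := by
    intro i hi
    rw [mem_filter] at hi ⊢
    have : (⟨i, hi.2⟩ : {i : ι // 0 < x i}) ∈ SS x B := by
      unfold SS; rw [Finset.mem_subtype]; exact hi.1
    have := hS this
    unfold SS at this
    rw [Finset.mem_subtype] at this
    exact ⟨this, hi.2⟩
  have h2 : B'.filter (fun i => x i < 0) ⊆ B.filter (fun i => x i < 0) := by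
    intro i hi
    rw [mem_filter] at hi ⊢
    refine ⟨?_, hi.2⟩
    by_contra hcon
    have : (⟨i, hi.2⟩ : {i : ι // x i < 0}) ∈ TT x B := by
      unfold TT; rw [Finset.mem_compl, Finset.mem_subtype]; exact hcon
    have := hT this
    unfold TT at this
    rw [Finset.mem_compl, Finset.mem_subtype] at this
    exact this hi.1
  have e1 := sum_split hx B
  have e2 := sum_split hx B'
  have s1 := Finset.sum_sdiff (f := x) h1
  have s2 := Finset.sum_sdiff (f := x) h2
  have n1 : 0 ≤ ∑ i ∈ B'.filter (fun i => 0 < x i) \ B.filter (fun i => 0 < x i), x i :=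
    Finset.sum_nonneg fun i hi => by
      rw [mem_sdiff, mem_filter] at hi; exact hi.1.2.le
  have n2 : ∑ i ∈ B.filter (fun i => x i < 0) \ B'.filter (fun i => x i < 0), x i ≤ 0 :=
    Finset.sum_nonpos fun i hi => by
      rw [mem_sdiff, mem_filter] at hi; exact hi.1.2.le
  have z1 : ∑ i ∈ B'.filter (fun i => 0 < x i) \ B.filter (fun i => 0 < x i), x i = 0 := by
    linarith
  have z2 : ∑ i ∈ B.filter (fun i => x i < 0) \ B'.filter (fun i => x i < 0), x i = 0 := by
    linarith
  have d1 : B'.filter (fun i => 0 < x i) \ B.filter (fun i => 0 < x i) = ∅ := by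
    by_contra hne
    have hne' := Finset.nonempty_iff_ne_empty.mpr hne
    have : 0 < ∑ i ∈ B'.filter (fun i => 0 < x i) \ B.filter (fun i => 0 < x i), x i :=
      Finset.sum_pos (fun i hi => by rw [mem_sdiff, mem_filter] at hi; exact hi.1.2) hne'
    linarith
  have d2 : B.filter (fun i => x i < 0) \ B'.filter (fun i => x i < 0) = ∅ := by
    by_contra hne
    have hne' := Finset.nonempty_iff_ne_empty.mpr hne
    have : 0 < ∑ i ∈ B.filter (fun i => x i < 0) \ B'.filter (fun i => x i < 0), (-x i) :=
      Finset.sum_pos (fun i hi => by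
        rw [mem_sdiff, mem_filter] at hi; linarith [hi.1.2]) hne'
    rw [Finset.sum_neg_distrib] at this
    linarith
  have q1 : B.filter (fun i => 0 < x i) = B'.filter (fun i => 0 < x i) :=
    Finset.Subset.antisymm h1 (Finset.sdiff_eq_empty_iff_subset.mp d1)
  have q2 : B.filter (fun i => x i < 0) = B'.filter (fun i => x i < 0) :=
    Finset.Subset.antisymm (Finset.sdiff_eq_empty_iff_subset.mp d2) h2
  ext i
  rcases lt_or_gt_of_ne (hx i) with h | h
  · have := Finset.ext_iff.mp q2 i
    simp only [mem_filter, h, and_true] at this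
    exact this
  · have := Finset.ext_iff.mp q1 i
    simp only [mem_filter, h, and_true] at this
    exact this

/-- The family of `r`-subsets with zero sum. -/
def FF (x : ι → ℚ) (r : ℕ) : Finset (Finset ι) :=
  (univ.powersetCard r).filter (fun B => ∑ i ∈ B, x i = 0)

/-- pairs of numberings having a given set as a prefix -/
def ZZ (x : ι → ℚ) (B : Finset ι) :
    Finset (Numbering {i : ι // 0 < x i} × Numbering {i : ι // x i < 0}) :=
  prefixed (SS x B) ×ˢ prefixed (TT x B)

lemma ZZ_disjoint {x : ι → ℚ} (hx : ∀ i, x i ≠ 0) {r : ℕ} {B B' : Finset ι}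
    (hB : B ∈ FF x r) (hB' : B' ∈ FF x r) (hne : B ≠ B') : Disjoint (ZZ x B) (ZZ x B') := by
  unfold FF at hB hB'
  rw [mem_filter, mem_powersetCard] at hB hB'
  rw [Finset.disjoint_left]
  rintro ⟨f, g⟩ h1 h2
  unfold ZZ at h1 h2
  rw [mem_product, mem_prefixed, mem_prefixed] at h1 h2
  have c1 := card_SS x B
  have c2 := card_TT x B
  have c3 := card_split hx B
  have c1' := card_SS x B'
  have c2' := card_TT x B'
  have c3' := card_split hx B'
  rw [hB.1.2] at c3
  rw [hB'.1.2] at c3'
  rcases Nat.le_total (SS x B).card (SS x B').card with h | h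
  · apply hne
    exact antichain hx hB.2 hB'.2 (h1.1.subset_of_card_le_card h2.1 h)
      (h1.2.subset_of_card_le_card h2.2 (by omega))
  · apply hne
    exact (antichain hx hB'.2 hB.2 (h2.1.subset_of_card_le_card h1.1 h)
      (h2.2.subset_of_card_le_card h1.2 (by omega))).symm

lemma card_ZZ {x : ι → ℚ} (hx : ∀ i, x i ≠ 0) {r : ℕ} {B : Finset ι} (hB : B ∈ FF x r) :
    (ZZ x B).card * (((Fintype.card {i : ι // 0 < x i}).choose (B.filter (fun i => 0 < x i)).card) *
      ((Fintype.card {i : ι // x i < 0}).choose (B.filter (fun i => x i < 0)).card)) =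
      (Fintype.card {i : ι // 0 < x i}).factorial * (Fintype.card {i : ι // x i < 0}).factorial := by
  unfold ZZ
  rw [card_product, card_prefixed, card_prefixed]
  have c1 := card_SS x B
  have c2 := card_TT x B
  set p := Fintype.card {i : ι // 0 < x i} with hp
  set q := Fintype.card {i : ι // x i < 0} with hq
  set j := (B.filter (fun i => 0 < x i)).card with hj
  set s := (B.filter (fun i => x i < 0)).card with hs
  have hjp : (SS x B).card ≤ p := Finset.card_le_univ _
  have hs' : q - (TT x B).card = s := by omega
  have ht' : (TT x B).card = q - s := by omega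
  have hsq : s ≤ q := by omega
  rw [hs', ht', c1]
  rw [c1] at hjp
  have f1 := Nat.choose_mul_factorial_mul_factorial hjp
  have f2 := Nat.choose_mul_factorial_mul_factorial hsq
  calc j.factorial * (p - j).factorial * ((q - s).factorial * s.factorial) * (p.choose j * q.choose s)
      = (p.choose j * j.factorial * (p - j).factorial) *
        (q.choose s * s.factorial * (q - s).factorial) := by ring
    _ = _ := by rw [f1, f2]

/-- The upper bound for zero-sum `r`-subsets of nonzero rationals. -/
theorem card_FF_le {x : ι → ℚ} (hx : ∀ i, x i ≠ 0) {r : ℕ} (hr : 1 ≤ r)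
    (hn : 2 * r ≤ Fintype.card ι) : (FF x r).card ≤ ff (Fintype.card ι) r := by
  set p := Fintype.card {i : ι // 0 < x i} with hp
  set q := Fintype.card {i : ι // x i < 0} with hq
  set n := Fintype.card ι with hn'
  have hpq : p + q = n := by
    have h := card_split hx (univ : Finset ι)
    rw [Finset.card_univ] at h
    rw [hp, hq, Fintype.card_subtype, Fintype.card_subtype]
    exact h
  have hbound : ∀ B ∈ FF x r, p.choose (B.filter (fun i => 0 < x i)).card *
      q.choose (B.filter (fun i => x i < 0)).card ≤ ff n r := by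
    intro B hB
    have hB' := hB
    unfold FF at hB'
    rw [mem_filter, mem_powersetCard] at hB'
    have c3 := card_split hx B
    rw [hB'.1.2] at c3
    have hsum := sum_split hx B
    rw [hB'.2] at hsum
    have hj : 1 ≤ (B.filter (fun i => 0 < x i)).card := by
      by_contra hcon
      have h0 : (B.filter (fun i => 0 < x i)) = ∅ := by
        rw [← Finset.card_eq_zero]; omega
      rw [h0, Finset.sum_empty, zero_add] at hsum
      have hne : (B.filter (fun i => x i < 0)).Nonempty := by
        rw [← Finset.card_pos]
        rw [h0, Finset.card_empty] at c3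
        omega
      have : 0 < ∑ i ∈ B.filter (fun i => x i < 0), (-x i) :=
        Finset.sum_pos (fun i hi => by rw [mem_filter] at hi; linarith [hi.2]) hne
      rw [Finset.sum_neg_distrib] at this
      linarith
    have hs : 1 ≤ (B.filter (fun i => x i < 0)).card := by
      by_contra hcon
      have h0 : (B.filter (fun i => x i < 0)) = ∅ := by
        rw [← Finset.card_eq_zero]; omega
      rw [h0, Finset.sum_empty, add_zero] at hsum
      have hne : (B.filter (fun i => 0 < x i)).Nonempty := by
        rw [← Finset.card_pos]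
        rw [h0, Finset.card_empty] at c3
        omega
      have : 0 < ∑ i ∈ B.filter (fun i => 0 < x i), x i :=
        Finset.sum_pos (fun i hi => by rw [mem_filter] at hi; exact hi.2) hne
      linarith
    have := numeric r n _ _ p c3 hj hs hn (by omega)
    unfold cc at this
    have e : n - p = q := by omega
    rw [e] at this
    exact this
  have hdisj : ∑ B ∈ FF x r, (ZZ x B).card ≤ p.factorial * q.factorial := by
    rw [← Finset.card_biUnion (fun B hB B' hB' hne => ZZ_disjoint hx hB hB' hne)]
    refine (Finset.card_le_univ _).trans ?_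
    rw [Fintype.card_prod, Fintype.card_numbering, Fintype.card_numbering]
  have hpos : 0 < p.factorial * q.factorial :=
    Nat.mul_pos (Nat.factorial_pos _) (Nat.factorial_pos _)
  have hmain : (FF x r).card * (p.factorial * q.factorial) ≤
      ff n r * (p.factorial * q.factorial) := by
    calc (FF x r).card * (p.factorial * q.factorial)
        = ∑ _B ∈ FF x r, (p.factorial * q.factorial) := by
          rw [Finset.sum_const, smul_eq_mul]
      _ = ∑ B ∈ FF x r, (ZZ x B).card * (p.choose (B.filter (fun i => 0 < x i)).card *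
            q.choose (B.filter (fun i => x i < 0)).card) := by
          apply Finset.sum_congr rfl
          intro B hB
          exact (card_ZZ hx hB).symm
      _ ≤ ∑ B ∈ FF x r, (ZZ x B).card * ff n r := by
          apply Finset.sum_le_sum
          intro B hB
          exact Nat.mul_le_mul_left _ (hbound B hB)
      _ = (∑ B ∈ FF x r, (ZZ x B).card) * ff n r := by rw [Finset.sum_mul]
      _ ≤ (p.factorial * q.factorial) * ff n r := Nat.mul_le_mul_right _ hdisj
      _ = _ := by ring
  exact Nat.le_of_mul_le_mul_right hmain hpos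

end Pool.Agent.Lib.MP_604c02_co
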