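import Mathlib
import Pool.Agent.Lib.MP_604c02_co.LYM

open Finset

namespace Pool.Agent.Lib.MP_604c02_co

/-- A rational-linear functional on the reals killing the rationals but no element of a given finite
set of irrational numbers. -/
lemma exists_functional (A : Finset ℝ) (hA : ∀ a ∈ A, Irrational a) :
    ∃ φ : ℝ →ₗ[ℚ] ℚ, φ 1 = 0 ∧ ∀ a ∈ A, φ a ≠ 0 := by
  set W : Submodule ℚ ℝ := Submodule.span ℚ {(1:ℝ)} with hW
  have hv : ∀ a : A, W.mkQ (a : ℝ) ≠ 0 := by
    rintro ⟨a, ha⟩ h0
    rw [Submodule.mkQ_apply, Submodule.Quotient.mk_eq_zero, hW, Submodule.mem_span_singleton] at h0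
    obtain ⟨c, hc⟩ := h0
    apply hA a ha
    refine ⟨c, ?_⟩
    rw [Rat.smul_one_eq_cast] at hc
    exact hc
  obtain ⟨f, hf⟩ := Module.exists_dual_forall_apply_ne_zero (K := ℚ) (fun a : A => W.mkQ (a : ℝ)) hv
  refine ⟨f ∘ₗ W.mkQ, ?_, ?_⟩
  · have : W.mkQ (1:ℝ) = 0 := by
      rw [Submodule.mkQ_apply, Submodule.Quotient.mk_eq_zero]
      exact Submodule.mem_span_singleton_self _
    rw [LinearMap.comp_apply, this, map_zero]
  · intro a ha
    exact hf ⟨a, ha⟩

/-- The `r`-subsets of `A` with rational sum. -/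
def RS (A : Finset ℝ) (r : ℕ) : Set (Finset ℝ) :=
  {B | B ⊆ A ∧ B.card = r ∧ ∃ q : ℚ, ∑ b ∈ B, b = (q : ℝ)}

lemma upper (A : Finset ℝ) (hA : ∀ a ∈ A, Irrational a) {r : ℕ} (hr : 1 ≤ r)
    (hn : 2 * r ≤ A.card) : (RS A r).ncard ≤ ff A.card r := by
  obtain ⟨φ, h1, hφ⟩ := exists_functional A hA
  set x : {a // a ∈ A} → ℚ := fun a => φ a with hx
  have hx0 : ∀ i, x i ≠ 0 := fun i => hφ i i.2
  have hcard : Fintype.card {a // a ∈ A} = A.card := Fintype.card_coe A
  have hF := card_FF_le hx0 hr (by rw [hcard]; exact hn)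
  rw [hcard] at hF
  refine le_trans ?_ hF
  have hsub : RS A r ⊆ ((FF x r).image (fun B => B.map (Function.Embedding.subtype _)) : Finset (Finset ℝ)) := by
    rintro B ⟨hBA, hBr, q, hq⟩
    rw [Finset.coe_image]
    refine ⟨B.subtype (fun a => a ∈ A), ?_, ?_⟩
    · rw [Finset.mem_coe]
      unfold FF
      rw [mem_filter, mem_powersetCard]
      refine ⟨⟨subset_univ _, ?_⟩, ?_⟩
      · rw [← hBr, Finset.card_subtype, Finset.filter_true_of_mem hBA]
      · have e1 : ∑ i ∈ B.subtype (fun a => a ∈ A), x i = ∑ b ∈ B, φ b := by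
          rw [Finset.sum_subtype_of_mem (fun b => φ b) hBA]
        rw [e1, ← map_sum, hq]
        have : (q : ℝ) = q • (1:ℝ) := by rw [Rat.smul_one_eq_cast]
        rw [this, map_smul, h1, smul_zero]
    · exact Finset.subtype_map_of_mem hBA
  calc (RS A r).ncard
      ≤ (((FF x r).image (fun B => B.map (Function.Embedding.subtype _)) : Finset (Finset ℝ)) : Set (Finset ℝ)).ncard :=
        Set.ncard_le_ncard hsub (Finset.finite_toSet _)
    _ = ((FF x r).image (fun B => B.map (Function.Embedding.subtype _))).card := Set.ncard_coe_finset _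
    _ ≤ (FF x r).card := Finset.card_image_le

/-- The construction. -/
lemma lower {n r : ℕ} (hr : 2 ≤ r) : ∃ A : Finset ℝ, A.card = n ∧
    (∀ a ∈ A, Irrational a) ∧ ff n r ≤ (RS A r).ncard := by
  classical
  set m := n / r with hm
  have hmn : m ≤ n := Nat.div_le_self _ _
  set s : ℝ := Real.sqrt 2 with hs
  have hirr : Irrational s := irrational_sqrt_two
  set e1 : ℕ → ℝ := fun i => (i:ℝ) - ((r - 1 : ℕ) : ℝ) * s with he1
  set e2 : ℕ → ℝ := fun i => (i:ℝ) + s with he2
  have inj1 : Function.Injective e1 := by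
    intro a b hab
    simp only [he1] at hab
    have : (a:ℝ) = b := by linarith
    exact_mod_cast this
  have inj2 : Function.Injective e2 := by
    intro a b hab
    simp only [he2] at hab
    have : (a:ℝ) = b := by linarith
    exact_mod_cast this
  set A1 : Finset ℝ := (range m).image e1 with hA1
  set A2 : Finset ℝ := (range (n - m)).image e2 with hA2
  have cA1 : A1.card = m := by rw [hA1, Finset.card_image_of_injective _ inj1, card_range]
  have cA2 : A2.card = n - m := by rw [hA2, Finset.card_image_of_injective _ inj2, card_range]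
  have hdisj : Disjoint A1 A2 := by
    rw [Finset.disjoint_left]
    intro z h1 h2
    rw [hA1, mem_image] at h1
    rw [hA2, mem_image] at h2
    obtain ⟨i, _, hi⟩ := h1
    obtain ⟨k, _, hk⟩ := h2
    rw [← hk] at hi
    simp only [he1, he2] at hi
    have h3 : ((r : ℕ) : ℝ) * s = ((i:ℤ) - (k:ℤ) : ℤ) := by
      have : ((r - 1 : ℕ) : ℝ) = (r:ℝ) - 1 := by
        rw [Nat.cast_sub (by omega)]; norm_num
      rw [this] at hi
      push_cast
      linarith
    have h4 : Irrational (((r : ℕ) : ℝ) * s) := hirr.natCast_mul (by omega)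
    exact h4 ⟨(((i:ℤ) - (k:ℤ) : ℤ) : ℚ), by rw [h3]; push_cast; ring⟩
  refine ⟨A1 ∪ A2, ?_, ?_, ?_⟩
  · rw [Finset.card_union_of_disjoint hdisj, cA1, cA2]; omega
  · intro a ha
    rw [mem_union] at ha
    rcases ha with ha | ha
    · rw [hA1, mem_image] at ha
      obtain ⟨i, _, rfl⟩ := ha
      simp only [he1]
      have h5 : Irrational (((r - 1 : ℕ) : ℝ) * s) := hirr.natCast_mul (by omega)
      exact h5.natCast_sub i
    · rw [hA2, mem_image] at ha
      obtain ⟨i, _, rfl⟩ := ha
      exact hirr.natCast_add i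
  · -- the family of good sets
    set T : Finset (Finset ℝ) := (A1 ×ˢ A2.powersetCard (r - 1)).image (fun p => insert p.1 p.2) with hT
    have hnot : ∀ a ∈ A1, ∀ B ∈ A2.powersetCard (r - 1), a ∉ B := by
      intro a ha B hB haB
      rw [mem_powersetCard] at hB
      exact (Finset.disjoint_left.mp hdisj) ha (hB.1 haB)
    have hTcard : T.card = ff n r := by
      rw [hT, Finset.card_image_of_injOn, card_product, card_powersetCard, cA1, cA2]
      · unfold ff; rfl
      · rintro ⟨a, B⟩ h1 ⟨a', B'⟩ h2 heq
        rw [Finset.mem_coe, mem_product] at h1 h2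
        simp only at h1 h2 heq
        have hB := (mem_powersetCard.mp h1.2).1
        have hB' := (mem_powersetCard.mp h2.2).1
        have f1 : (insert a B).filter (fun z => z ∈ A2) = B := by
          rw [Finset.filter_insert, if_neg (Finset.disjoint_left.mp hdisj h1.1)]
          exact Finset.filter_true_of_mem hB
        have f1' : (insert a' B').filter (fun z => z ∈ A2) = B' := by
          rw [Finset.filter_insert, if_neg (Finset.disjoint_left.mp hdisj h2.1)]
          exact Finset.filter_true_of_mem hB'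
        have hBB : B = B' := by rw [← f1, ← f1', heq]
        subst hBB
        have ha : a ∈ insert a' B := by rw [← heq]; exact mem_insert_self _ _
        rw [mem_insert] at ha
        rcases ha with ha | ha
        · rw [ha]
        · exact absurd ha (hnot a h1.1 B h1.2)
    have hTsub : (T : Set (Finset ℝ)) ⊆ RS (A1 ∪ A2) r := by
      intro B hB
      rw [Finset.mem_coe, hT, mem_image] at hB
      obtain ⟨⟨a, C⟩, hac, rfl⟩ := hB
      rw [mem_product] at hac
      simp only at hac ⊢
      have hC := mem_powersetCard.mp hac.2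
      have hna := hnot a hac.1 C hac.2
      refine ⟨?_, ?_, ?_⟩
      · intro z hz
        rw [mem_insert] at hz
        rw [mem_union]
        rcases hz with rfl | hz
        · exact Or.inl hac.1
        · exact Or.inr (hC.1 hz)
      · rw [Finset.card_insert_of_notMem hna, hC.2]; omega
      · rw [Finset.sum_insert hna]
        have hac1 := hac.1
        rw [hA1, mem_image] at hac1
        obtain ⟨i, _, hi⟩ := hac1
        -- each element of C is (natural) + s
        have hC' : ∀ c ∈ C, ∃ q : ℚ, c = (q:ℝ) + s := by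
          intro c hc
          have := hC.1 hc
          rw [hA2, mem_image] at this
          obtain ⟨k, _, hk⟩ := this
          exact ⟨(k:ℚ), by rw [← hk]; simp [he2]⟩
        choose! g hg using hC'
        refine ⟨(i:ℚ) + ∑ c ∈ C, g c, ?_⟩
        have hsum : ∑ c ∈ C, c = ∑ c ∈ C, ((g c : ℝ) + s) := Finset.sum_congr rfl (fun c hc => hg c hc)
        rw [hsum, Finset.sum_add_distrib, Finset.sum_const, hC.2, ← hi]
        simp only [he1, nsmul_eq_mul]
        push_cast
        ring
    have hfin : (RS (A1 ∪ A2) r).Finite := by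
      apply Set.Finite.subset (Finset.finite_toSet (A1 ∪ A2).powerset)
      rintro B ⟨hB, _⟩
      rw [Finset.mem_coe, mem_powerset]; exact hB
    rw [← hTcard, ← Set.ncard_coe_finset]
    exact Set.ncard_le_ncard hTsub hfin

end Pool.Agent.Lib.MP_604c02_co
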